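import Pool.Agent.H96RS2.Tr

open Set Complex Cardinal

namespace Pool.Agent.H96RS2

open Pool.Agent.H96RS

theorem le_trdeg {S : Set ℂ} {m : ℕ} (h : (m : ℕ∞) ≤ Mt.eRk S) :
    (m : Cardinal.{0}) ≤ Algebra.trdeg ℚ (IntermediateField.adjoin ℚ S) := by
  obtain ⟨J, hJS, hJ, hcard⟩ := Mt.le_eRk_iff.1 h
  have hJ' : AlgebraicIndependent ℚ (fun a : J => (a : ℂ)) := hJ
  let v : J → IntermediateField.adjoin ℚ S :=
    fun a => ⟨(a : ℂ), IntermediateField.subset_adjoin ℚ S (hJS a.2)⟩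
  have hv : AlgebraicIndependent ℚ v :=
    AlgebraicIndependent.of_comp (IntermediateField.adjoin ℚ S).val hJ'
  have h1 := hv.cardinalMk_le_trdeg
  have h2 : #J = m := by
    have h3 : Cardinal.toENat #J = (m : ℕ∞) := by rw [← hcard]; exact toENat_cardinalMk J
    exact Cardinal.toENat_eq_natCast.1 h3
  rw [h2] at h1
  exact h1

theorem notMem_closure_empty {a : ℂ} (ha : Transcendental ℚ a) : a ∉ Mt.closure ∅ := by
  intro h
  rw [mem_cl] at h
  apply ha
  have h2 : Algebra.adjoin ℚ (∅ : Set ℂ) = ⊥ := Algebra.adjoin_empty _ _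
  rw [h2] at h
  have h3 : Algebra.IsAlgebraic ℚ (⊥ : Subalgebra ℚ ℂ) :=
    ⟨fun a => by
      obtain ⟨q, hq⟩ := Algebra.mem_bot.1 a.2
      have : a = algebraMap ℚ (⊥ : Subalgebra ℚ ℂ) q := Subtype.ext hq.symm
      rw [this]; exact isAlgebraic_algebraMap q⟩
  exact h.restrictScalars ℚ

theorem exists_base {ω : ℂ} {τ : ℝ} (hω : ω ∉ Mt.closure ∅) (hωc : starRingEnd ℂ ω = -ω) (hτ0 : 0 < τ)
    (hτ : (τ : ℂ) ∉ Mt.closure ∅) :
    ∃ G0 : Submodule ℚ (ℂ × ℂ), Good ω τ G0 ∧ #G0 ≤ ℵ₀ := by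
  refine ⟨_, base_good hω hωc hτ0 hτ, ?_⟩
  have h1 : #(Submodule.span ℚ {((1, ((Real.log τ : ℝ) : ℂ)) : ℂ × ℂ)}) ≤ ℵ₀ := by
    refine (Cardinal.mk_le_of_surjective (f := fun q : ℚ =>
      (⟨q • ((1, ((Real.log τ : ℝ) : ℂ)) : ℂ × ℂ), Submodule.smul_mem _ _
        (Submodule.mem_span_singleton_self _)⟩ :
        Submodule.span ℚ {((1, ((Real.log τ : ℝ) : ℂ)) : ℂ × ℂ)})) ?_).trans Cardinal.mk_le_aleph0
    rintro ⟨v, hv⟩
    obtain ⟨q, rfl⟩ := Submodule.mem_span_singleton.1 hv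
    exact ⟨q, rfl⟩
  exact (sup_span_card _ _).trans (max_le h1 le_rfl)

/-- the exponential map on the complex numbers -/
theorem exists_exp {ω : ℂ} {τ : ℝ} (hω : ω ∉ Mt.closure ∅) (hωc : starRingEnd ℂ ω = -ω)
    (hτ0 : 0 < τ) (hτ : (τ : ℂ) ∉ Mt.closure ∅) :
    ∃ E : ℂ → ℂ, (∀ z w, E (z + w) = E z * E w) ∧
      (∀ y, y ≠ 0 → ∃ z, E z = y) ∧ (∀ z, E z = 1 ↔ ∃ k : ℤ, z = (k : ℚ) • ω) ∧
      (∀ q : ℚ, E (q • ω) = exp (q • (2 * Real.pi * I))) ∧
      (∀ z, E (starRingEnd ℂ z) = starRingEnd ℂ (E z)) ∧ E 1 = τ ∧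
      ∀ (n : ℕ) (z : Fin n → ℂ), LinearIndependent ℚ z → ∃ d : ℕ∞, d ≤ 1 ∧
        (¬ ((1 : ℂ) ∈ Submodule.span ℚ (range z) ∧ ω ∈ Submodule.span ℚ (range z)) → d = 0) ∧
        (n : ℕ∞) ≤ Mt.eRk (range z ∪ range (fun i => E (z i))) + d := by
  obtain ⟨G0, hG0, hc0⟩ := exists_base hω hωc hτ0 hτ
  obtain ⟨G, hG, hdom, hran⟩ := exists_total hG0 hc0
  have hA : ∀ z : ℂ, ∃ m : ℂ, (z, m) ∈ G := by
    intro z
    obtain ⟨⟨a, m⟩, hv, rfl⟩ := hdom z
    exact ⟨m, hv⟩
  choose A hA using hA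
  have hu : ∀ z m : ℂ, (z, m) ∈ G → A z = m := by
    intro z m h
    have h1 := G.sub_mem (hA z) h
    have h2 := hG.fn _ h1 (by simp)
    exact sub_eq_zero.1 h2
  have hAadd : ∀ z w, A (z + w) = A z + A w := fun z w => hu _ _ (G.add_mem (hA z) (hA w))
  have hAsmul : ∀ (q : ℚ) z, A (q • z) = q • A z := fun q z => hu _ _ (G.smul_mem q (hA z))
  have hAω : A ω = 2 * Real.pi * I := hu _ _ hG.om
  refine ⟨fun z => exp (A z), ?_, ?_, ?_, ?_, ?_, ?_, ?_⟩
  · intro z w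
    simp only [hAadd, exp_add]
  · intro y hy
    obtain ⟨⟨a, m⟩, hv, rfl⟩ := hran y hy
    exact ⟨a, by simp only [hu a m hv]⟩
  · intro z
    constructor
    · intro h
      exact hG.ker _ (hA z) h
    · rintro ⟨k, rfl⟩
      simp only [hAsmul, hAω]
      rw [Rat.smul_def, Rat.cast_intCast, exp_int_mul_two_pi_mul_I]
  · intro q
    simp only [hAsmul, hAω]
  · intro z
    have h1 : A (starRingEnd ℂ z) = starRingEnd ℂ (A z) := hu _ _ (hG.cj _ (hA z))
    simp only [h1, exp_conj]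
  · have h1 : A 1 = ((Real.log τ : ℝ) : ℂ) := hu _ _ hG.one
    simp only [h1]
    rw [← ofReal_exp, Real.exp_log hτ0]
  · intro n z hz
    set w : Fin n → ℂ × ℂ := fun i => (z i, A (z i)) with hw
    have hwli : LinearIndependent ℚ w := by
      refine LinearIndependent.of_comp (LinearMap.fst ℚ ℂ ℂ) ?_
      exact hz
    have hYG : Submodule.span ℚ (range w) ≤ G := by
      rw [Submodule.span_le]; rintro _ ⟨i, rfl⟩; exact hA (z i)
    have hfin : FiniteDimensional ℚ (Submodule.span ℚ (range w)) :=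
      FiniteDimensional.span_of_finite ℚ (Set.finite_range w)
    have h1 := hG.sch _ hYG hfin
    have h2 : Module.finrank ℚ (Submodule.span ℚ (range w)) = n := by
      rw [finrank_span_eq_card hwli, Fintype.card_fin]
    have hfst : ∀ v ∈ Submodule.span ℚ (range w), v.1 ∈ Submodule.span ℚ (range z) := by
      intro v hv
      have h3 := Submodule.mem_map_of_mem (f := LinearMap.fst ℚ ℂ ℂ) hv
      rw [Submodule.map_span, ← range_comp] at h3
      exact h3
    refine ⟨dl ω (Submodule.span ℚ (range w)), dl_le_one _ _, fun hn => ?_, ?_⟩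
    · unfold dl
      rw [if_neg]
      rintro ⟨⟨v, hv, hv1⟩, ⟨u, hu', hu1⟩⟩
      exact hn ⟨hv1 ▸ hfst v hv, hu1 ▸ hfst u hu'⟩
    · rw [h2] at h1
      refine h1.trans ?_
      gcongr
      rw [← Mt.eRk_closure_eq (range z ∪ range fun i => exp (A (z i)))]
      apply Mt.eRk_mono
      have hsub : range z ∪ (range fun i => exp (A (z i))) ⊆
          Mt.closure (range z ∪ range fun i => exp (A (z i))) := Mt.subset_closure _ (by simp)
      have h4 : ∀ v ∈ Submodule.span ℚ (range w),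
          v.1 ∈ Mt.closure (range z ∪ range fun i => exp (A (z i))) ∧
          exp v.2 ∈ Mt.closure (range z ∪ range fun i => exp (A (z i))) := by
        intro v hv
        induction hv using Submodule.span_induction with
        | mem v hv =>
          obtain ⟨i, rfl⟩ := hv
          exact ⟨hsub (Or.inl ⟨i, rfl⟩), hsub (Or.inr ⟨i, rfl⟩)⟩
        | zero =>
          have h5 := cl_rat (S := range z ∪ range fun i => exp (A (z i))) 0
          have h6 := cl_rat (S := range z ∪ range fun i => exp (A (z i))) 1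
          rw [Rat.cast_zero] at h5
          rw [Rat.cast_one] at h6
          exact ⟨h5, by rw [Prod.snd_zero, exp_zero]; exact h6⟩
        | add u v _ _ h5 h6 =>
          exact ⟨cl_add h5.1 h6.1, by rw [Prod.snd_add, exp_add]; exact cl_mul h5.2 h6.2⟩
        | smul q v _ h5 => exact ⟨smul_mem q h5.1, exp_smul_mem q h5.2⟩
      rintro t ⟨v, hv, rfl | rfl⟩
      · exact (h4 v hv).1
      · exact (h4 v hv).2

end Pool.Agent.H96RS2
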