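import Pool.Agent.H96RS.Cl

open Set Complex

namespace Pool.Agent.H96RS2

open Pool.Agent.H96RS

theorem exp_smul_pow (q : ℚ) (l : ℂ) : exp (q • l) ^ q.den = exp l ^ q.num := by
  rw [← exp_nat_mul, ← exp_int_mul]
  congr 1
  have : (q.den : ℚ) * q = q.num := by rw [mul_comm]; exact Rat.mul_den_eq_num q
  rw [Rat.smul_def, ← mul_assoc]
  congr 1
  exact_mod_cast this

theorem exp_smul_mem {S : Set ℂ} (q : ℚ) {l : ℂ} (h : exp l ∈ Mt.closure S) :
    exp (q • l) ∈ Mt.closure S := by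
  refine cl_root q.den_pos ?_
  rw [exp_smul_pow]
  exact cl_zpow _ h

theorem of_exp_smul_mem {S : Set ℂ} {q : ℚ} (hq : q ≠ 0) {l : ℂ}
    (h : exp (q • l) ∈ Mt.closure S) : exp l ∈ Mt.closure S := by
  have := cl_pow q.den h
  rw [exp_smul_pow] at this
  exact cl_zroot (by simpa using hq) this

theorem smul_mem {S : Set ℂ} (q : ℚ) {a : ℂ} (h : a ∈ Mt.closure S) : q • a ∈ Mt.closure S := by
  rw [Rat.smul_def]; exact cl_mul (cl_rat _) h

theorem of_smul_mem {S : Set ℂ} {q : ℚ} (hq : q ≠ 0) {a : ℂ} (h : q • a ∈ Mt.closure S) :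
    a ∈ Mt.closure S := by
  have := smul_mem q⁻¹ h
  rwa [smul_smul, inv_mul_cancel₀ hq, one_smul] at this

/-- the numbers that occur in a space of pairs `(a, m)`: the numbers `a` and the numbers `exp m` -/
def Nums (Y : Submodule ℚ (ℂ × ℂ)) : Set ℂ := {t | ∃ v ∈ Y, t = v.1 ∨ t = exp v.2}

theorem Nums_mono {Y Z : Submodule ℚ (ℂ × ℂ)} (h : Y ≤ Z) : Nums Y ⊆ Nums Z := by
  rintro t ⟨v, hv, ht⟩
  exact ⟨v, h hv, ht⟩

/-- `1` when both `1` and `ω` occur as first coordinates, and `0` otherwise -/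
noncomputable def dl (ω : ℂ) (Y : Submodule ℚ (ℂ × ℂ)) : ℕ∞ :=
  open Classical in if (∃ v ∈ Y, v.1 = 1) ∧ ∃ v ∈ Y, v.1 = ω then 1 else 0

theorem dl_mono {ω : ℂ} {Y Z : Submodule ℚ (ℂ × ℂ)} (h : Y ≤ Z) : dl ω Y ≤ dl ω Z := by
  unfold dl
  by_cases hY : (∃ v ∈ Y, v.1 = 1) ∧ ∃ v ∈ Y, v.1 = ω
  · rw [if_pos hY, if_pos ⟨hY.1.imp fun v hv => ⟨h hv.1, hv.2⟩, hY.2.imp fun v hv => ⟨h hv.1, hv.2⟩⟩]
  · rw [if_neg hY]; exact zero_le

theorem dl_le_one (ω : ℂ) (Y : Submodule ℚ (ℂ × ℂ)) : dl ω Y ≤ 1 := by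
  unfold dl; split_ifs <;> simp

/-- the graph of a partial exponential map with the Schanuel property up to one -/
structure Good (ω : ℂ) (τ : ℝ) (G : Submodule ℚ (ℂ × ℂ)) : Prop where
  fn : ∀ v ∈ G, v.1 = 0 → v.2 = 0
  cj : ∀ v ∈ G, ((starRingEnd ℂ v.1, starRingEnd ℂ v.2) : ℂ × ℂ) ∈ G
  one : ((1, ((Real.log τ : ℝ) : ℂ)) : ℂ × ℂ) ∈ G
  om : ((ω, 2 * Real.pi * I) : ℂ × ℂ) ∈ G
  ker : ∀ v ∈ G, exp v.2 = 1 → ∃ k : ℤ, v.1 = (k : ℚ) • ω
  sch : ∀ Y : Submodule ℚ (ℂ × ℂ), Y ≤ G → FiniteDimensional ℚ Y →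
    (Module.finrank ℚ Y : ℕ∞) ≤ Mt.eRk (Nums Y) + dl ω Y

theorem mem_dec {G : Submodule ℚ (ℂ × ℂ)} {w v : ℂ × ℂ} (hv : v ∈ G ⊔ Submodule.span ℚ {w}) :
    ∃ u ∈ G, ∃ q : ℚ, v = u + q • w := by
  obtain ⟨u, hu, c, hc, rfl⟩ := Submodule.mem_sup.1 hv
  obtain ⟨q, rfl⟩ := Submodule.mem_span_singleton.1 hc
  exact ⟨u, hu, q, rfl⟩

theorem finrank_le_inf {G Y : Submodule ℚ (ℂ × ℂ)} {w : ℂ × ℂ} (hY : Y ≤ G ⊔ Submodule.span ℚ {w})
    [FiniteDimensional ℚ Y] :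
    Module.finrank ℚ Y ≤ Module.finrank ℚ (Y ⊓ G : Submodule ℚ (ℂ × ℂ)) + 1 := by
  by_cases hYG : Y ≤ G
  · rw [inf_eq_left.2 hYG]; omega
  obtain ⟨y, hyY, hyG⟩ := SetLike.not_le_iff_exists.1 hYG
  obtain ⟨u, hu, q, hq⟩ := mem_dec (hY hyY)
  have hq0 : q ≠ 0 := by
    rintro rfl
    rw [zero_smul, add_zero] at hq
    exact hyG (hq ▸ hu)
  have h1 : Y ≤ (Y ⊓ G) ⊔ Submodule.span ℚ {y} := by
    intro v hv
    obtain ⟨u', hu', q', hq'⟩ := mem_dec (hY hv)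
    have h2 : v - (q' / q) • y = u' - (q' / q) • u := by
      rw [hq, hq', smul_add, smul_smul, div_mul_cancel₀ _ hq0]; abel
    have h3 : v = (v - (q' / q) • y) + (q' / q) • y := by abel
    rw [h3]
    refine Submodule.add_mem_sup ⟨Y.sub_mem hv (Y.smul_mem _ hyY), ?_⟩
      (Submodule.smul_mem _ _ (Submodule.mem_span_singleton_self y))
    rw [SetLike.mem_coe, h2]
    exact G.sub_mem hu' (G.smul_mem _ hu)
  have hf : FiniteDimensional ℚ (Y ⊓ G : Submodule ℚ (ℂ × ℂ)) :=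
    Submodule.finiteDimensional_of_le inf_le_left
  have h2 := Submodule.finrank_mono h1
  have h3 := Submodule.finrank_add_le_finrank_add_finrank (Y ⊓ G) (Submodule.span ℚ {y})
  have h4 : Module.finrank ℚ (Submodule.span ℚ {y}) ≤ 1 := by
    have := finrank_span_le_card (R := ℚ) ({y} : Set (ℂ × ℂ))
    simpa using this
  omega

/-- one generic step: the new vector `g` gets the value `l` -/
theorem Good.ext {ω : ℂ} {τ : ℝ} {G : Submodule ℚ (ℂ × ℂ)} (h : Good ω τ G) {S : Set ℂ}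
    (hGS : Nums G ⊆ Mt.closure S) {g l : ℂ} {e : ℚ} (hcg : starRingEnd ℂ g = e • g)
    (hcl : starRingEnd ℂ l = e • l) (hg : ∀ v ∈ G, v.1 ≠ g) (hl : ∀ v ∈ G, exp v.2 ≠ exp l)
    (hnew : g ∉ Mt.closure S ∨ exp l ∉ Mt.closure S) :
    Good ω τ (G ⊔ Submodule.span ℚ {((g, l) : ℂ × ℂ)}) := by
  have hle : G ≤ G ⊔ Submodule.span ℚ {((g, l) : ℂ × ℂ)} := le_sup_left
  have hne : ∀ u ∈ G, ∀ q : ℚ, q ≠ 0 → (u + q • ((g, l) : ℂ × ℂ)).1 ∉ Mt.closure S ∨
      exp (u + q • ((g, l) : ℂ × ℂ)).2 ∉ Mt.closure S := by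
    intro u hu q hq
    rcases hnew with hn | hn
    · left
      intro hK
      apply hn
      refine of_smul_mem hq ?_
      have h1 : q • g = (u + q • ((g, l) : ℂ × ℂ)).1 - u.1 := by simp
      rw [h1]
      exact cl_sub hK (hGS ⟨u, hu, Or.inl rfl⟩)
    · right
      intro hK
      apply hn
      refine of_exp_smul_mem hq ?_
      have h1 : exp (q • l) = exp (u + q • ((g, l) : ℂ × ℂ)).2 * (exp u.2)⁻¹ := by
        rw [← exp_neg, ← exp_add]
        congr 1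
        simp
      rw [h1]
      exact cl_mul hK (cl_inv (hGS ⟨u, hu, Or.inr rfl⟩))
  refine ⟨?_, ?_, hle h.one, hle h.om, ?_, ?_⟩
  · intro v hv hv0
    obtain ⟨u, hu, q, rfl⟩ := mem_dec hv
    by_cases hq : q = 0
    · subst hq
      rw [zero_smul, add_zero] at hv0 ⊢
      exact h.fn u hu hv0
    · exfalso
      refine hg ((-q⁻¹) • u) (G.smul_mem _ hu) ?_
      have h1 : u.1 = - (q • g) := by
        have : u.1 + q • g = 0 := by simpa using hv0
        exact eq_neg_of_add_eq_zero_left this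
      rw [Prod.smul_fst, h1, smul_neg, neg_smul, neg_neg, smul_smul, inv_mul_cancel₀ hq, one_smul]
  · intro v hv
    obtain ⟨u, hu, q, rfl⟩ := mem_dec hv
    have h1 : ((starRingEnd ℂ (u + q • ((g, l) : ℂ × ℂ)).1,
        starRingEnd ℂ (u + q • ((g, l) : ℂ × ℂ)).2) : ℂ × ℂ) =
        (starRingEnd ℂ u.1, starRingEnd ℂ u.2) + (q * e) • ((g, l) : ℂ × ℂ) := by
      have h2 : ∀ z : ℂ, starRingEnd ℂ (q • z) = q • starRingEnd ℂ z := by
        intro z; rw [Rat.smul_def, Rat.smul_def, map_mul]; simp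
      ext1
      · simp only [Prod.fst_add, Prod.smul_fst, map_add, h2, hcg, smul_smul]
      · simp only [Prod.snd_add, Prod.smul_snd, map_add, h2, hcl, smul_smul]
    rw [h1]
    exact Submodule.add_mem_sup (h.cj u hu)
      (Submodule.smul_mem _ _ (Submodule.mem_span_singleton_self _))
  · intro v hv h1
    obtain ⟨u, hu, q, rfl⟩ := mem_dec hv
    by_cases hq : q = 0
    · subst hq
      rw [zero_smul, add_zero] at h1 ⊢
      exact h.ker u hu h1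
    · exfalso
      rw [exp_eq_one_iff] at h1
      obtain ⟨k, hk⟩ := h1
      refine hl (q⁻¹ • ((k : ℚ) • ((ω, 2 * Real.pi * I) : ℂ × ℂ) - u))
        (G.smul_mem _ (G.sub_mem (G.smul_mem _ h.om) hu)) ?_
      congr 1
      have h3 : (q : ℂ) ≠ 0 := by exact_mod_cast hq
      have h4 : u.2 + (q : ℂ) * l = k * (2 * Real.pi * I) := by
        rw [← hk, Prod.snd_add, Prod.smul_snd, Rat.smul_def]
      simp only [Prod.smul_snd, Prod.snd_sub, Rat.smul_def]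
      push_cast
      field_simp
      linear_combination (-1 : ℂ) * h4
  · intro Y hY hfin
    by_cases hYG : Y ≤ G
    · exact h.sch Y hYG hfin
    · obtain ⟨y, hyY, hyG⟩ := SetLike.not_le_iff_exists.1 hYG
      have h1 := finrank_le_inf hY
      have hfin2 : FiniteDimensional ℚ (Y ⊓ G : Submodule ℚ (ℂ × ℂ)) :=
        Submodule.finiteDimensional_of_le inf_le_left
      have h2 := h.sch (Y ⊓ G) inf_le_right hfin2
      have hSK : Nums (Y ⊓ G) ⊆ Mt.closure S := (Nums_mono inf_le_right).trans hGS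
      have hST : Nums (Y ⊓ G) ⊆ Nums Y := Nums_mono inf_le_left
      obtain ⟨t, htY, htK⟩ : ∃ t ∈ Nums Y, t ∉ Mt.closure S := by
        obtain ⟨u, hu, q, hq⟩ := mem_dec (hY hyY)
        have hq0 : q ≠ 0 := by
          rintro rfl
          rw [zero_smul, add_zero] at hq
          exact hyG (hq ▸ hu)
        subst hq
        rcases hne u hu q hq0 with h3 | h3
        · exact ⟨_, ⟨_, hyY, Or.inl rfl⟩, h3⟩
        · exact ⟨_, ⟨_, hyY, Or.inr rfl⟩, h3⟩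
      have htS : t ∉ Mt.closure (Nums (Y ⊓ G)) := by
        intro h3
        apply htK
        have := Mt.closure_subset_closure hSK h3
        rwa [Mt.closure_closure] at this
      have h4 : Mt.eRk (insert t (Nums (Y ⊓ G))) = Mt.eRk (Nums (Y ⊓ G)) + 1 :=
        Mt.eRk_insert_eq_add_one ⟨by simp, htS⟩
      have h5 : Mt.eRk (insert t (Nums (Y ⊓ G))) ≤ Mt.eRk (Nums Y) :=
        Mt.eRk_mono (Set.insert_subset htY hST)
      calc (Module.finrank ℚ Y : ℕ∞)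
          ≤ ((Module.finrank ℚ (Y ⊓ G : Submodule ℚ (ℂ × ℂ)) + 1 : ℕ) : ℕ∞) := by exact_mod_cast h1
        _ = (Module.finrank ℚ (Y ⊓ G : Submodule ℚ (ℂ × ℂ)) : ℕ∞) + 1 := by push_cast; rfl
        _ ≤ (Mt.eRk (Nums (Y ⊓ G)) + dl ω (Y ⊓ G)) + 1 := by gcongr
        _ = Mt.eRk (Nums (Y ⊓ G)) + 1 + dl ω (Y ⊓ G) := by ring
        _ ≤ Mt.eRk (Nums Y) + dl ω Y := by
            rw [← h4]
            exact add_le_add h5 (dl_mono inf_le_left)

end Pool.Agent.H96RS2
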