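import Pool.Agent.H96RS2.Fn

/-!
# MP_363d4d_nt: Schanuel's conjecture away from `1` and `π i` does not decide `π + e` and `π - e`

Let `p` and `τ > 0` be transcendental real numbers, for example `p = π` (Lindemann) and `τ = r - π` or `τ = π - r` with
`r` rational. There is an exponential map `E` of the complex numbers, a homomorphism from the additive group onto the
multiplicative group, with kernel exactly `ℤ ω`, `ω = 2 p i`, with the usual roots of unity `E (q ω) = exp (2 π i q)` for
rational `q`, commuting with complex conjugation, and with `E 1 = τ`, such that all instances of Schanuel's conjecture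
hold for `E`, except that the bound `n` is replaced by `n - 1` when both `1` and `ω` lie in the rational span of the
given numbers.
-/

open Set Complex Cardinal
open Pool.Agent.H96RS Pool.Agent.H96RS2

namespace Pool.Agent.H96RS2.KeptRestrictedSchanuel

/-- The field generated over the rationals by the numbers `z i` and their images `w i`. -/
noncomputable abbrev Gen {n : ℕ} (z w : Fin n → ℂ) : IntermediateField ℚ ℂ :=
  IntermediateField.adjoin ℚ (Set.range z ∪ Set.range w)

theorem result (p τ : ℝ) (hp : Transcendental ℚ p) (hτ : Transcendental ℚ τ) (hτ0 : 0 < τ) :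
    ∃ E : ℂ → ℂ,
      (∀ z w : ℂ, E (z + w) = E z * E w) ∧
      (∀ y : ℂ, y ≠ 0 → ∃ z : ℂ, E z = y) ∧
      (∀ z : ℂ, E z = 1 ↔ ∃ k : ℤ, z = k * (2 * p * Complex.I)) ∧
      (∀ q : ℚ, E (q * (2 * p * Complex.I)) = Complex.exp (2 * Real.pi * Complex.I * q)) ∧
      (∀ z : ℂ, E (starRingEnd ℂ z) = starRingEnd ℂ (E z)) ∧
      E 1 = τ ∧
      ∀ (n : ℕ) (z : Fin n → ℂ), LinearIndependent ℚ z →
        (n : Cardinal.{0}) ≤ Algebra.trdeg ℚ (Gen z (fun i => E (z i))) + 1 ∧
        (¬ ((1 : ℂ) ∈ Submodule.span ℚ (Set.range z) ∧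
            (2 * p * Complex.I : ℂ) ∈ Submodule.span ℚ (Set.range z)) →
          (n : Cardinal.{0}) ≤ Algebra.trdeg ℚ (Gen z (fun i => E (z i)))) := by
  have hpc : (p : ℂ) ∉ Mt.closure ∅ := notMem_closure_empty
    ((transcendental_algebraMap_iff (R := ℚ) (S := ℝ) (A := ℂ) Complex.ofReal_injective).2 hp)
  have hτc : (τ : ℂ) ∉ Mt.closure ∅ := notMem_closure_empty
    ((transcendental_algebraMap_iff (R := ℚ) (S := ℝ) (A := ℂ) Complex.ofReal_injective).2 hτ)
  have hω : (2 * p * Complex.I : ℂ) ∉ Mt.closure ∅ := by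
    intro h
    apply hpc
    refine of_smul_mem (q := 2) two_ne_zero ?_
    rw [Rat.smul_def]
    have := of_mul_I_mem h
    simpa using this
  have hωc : starRingEnd ℂ (2 * p * Complex.I : ℂ) = -(2 * p * Complex.I) := by
    apply Complex.ext <;> simp
  obtain ⟨E, hadd, hsurj, hker, hq, hconj, h1, hsch⟩ := exists_exp hω hωc hτ0 hτc
  refine ⟨E, hadd, hsurj, fun z => ?_, fun q => ?_, hconj, h1, fun n z hz => ?_⟩
  · rw [hker z]
    refine exists_congr fun k => ?_
    rw [Rat.smul_def, Rat.cast_intCast]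
  · have h3 := hq q
    rw [Rat.smul_def, Rat.smul_def] at h3
    rw [h3]
    congr 1
    ring
  · obtain ⟨d, hd1, hd0, h3⟩ := hsch n z hz
    constructor
    · have h5 : ((n - 1 : ℕ) : ℕ∞) ≤ Mt.eRk (Set.range z ∪ Set.range (fun i => E (z i))) := by
        have h6 : (n : ℕ∞) ≤ Mt.eRk (Set.range z ∪ Set.range (fun i => E (z i))) + 1 :=
          h3.trans (by gcongr)
        push_cast
        exact tsub_le_iff_right.2 h6
      have h7 := le_trdeg h5
      calc (n : Cardinal.{0}) ≤ ((n - 1 + 1 : ℕ) : Cardinal.{0}) := by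
            exact_mod_cast (by omega : n ≤ n - 1 + 1)
        _ = ((n - 1 : ℕ) : Cardinal.{0}) + 1 := by push_cast; rfl
        _ ≤ _ := by gcongr
    · intro hc
      rw [hd0 hc, add_zero] at h3
      exact le_trdeg h3

end Pool.Agent.H96RS2.KeptRestrictedSchanuel
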