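import Pool.Agent.H96RS2.Bs

open Set Complex Cardinal

namespace Pool.Agent.H96RS2

open Pool.Agent.H96RS

theorem closure_card (S : Set ℂ) : #(Mt.closure S) ≤ max #S ℵ₀ := by
  have h0 : Mt.closure S = (algebraicClosure (IntermediateField.adjoin ℚ S) ℂ : Set ℂ) := by
    ext z
    rw [mem_cl, ← IntermediateField.isAlgebraic_adjoin_iff]
    exact mem_algebraicClosure_iff.symm
  have h1 : #(IntermediateField.adjoin ℚ S) ≤ max #S ℵ₀ := by
    refine (IntermediateField.cardinalMk_adjoin_le ℚ S).trans ?_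
    exact sup_le (sup_le (Cardinal.mk_le_aleph0.trans (le_max_right _ _)) (le_max_left _ _))
      (le_max_right _ _)
  rw [h0]
  refine (Algebra.IsAlgebraic.cardinalMk_le_max (IntermediateField.adjoin ℚ S)
      (algebraicClosure (IntermediateField.adjoin ℚ S) ℂ)).trans ?_
  exact max_le h1 (le_max_right _ _)

theorem nums_card (G : Submodule ℚ (ℂ × ℂ)) : #(Nums G) ≤ max #G ℵ₀ := by
  have h : Nums G = (range fun v : G => v.1.1) ∪ (range fun v : G => exp v.1.2) := by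
    ext t
    constructor
    · rintro ⟨v, hv, h | h⟩
      · exact Or.inl ⟨⟨v, hv⟩, h.symm⟩
      · exact Or.inr ⟨⟨v, hv⟩, h.symm⟩
    · rintro (⟨v, h⟩ | ⟨v, h⟩)
      · exact ⟨v, v.2, Or.inl h.symm⟩
      · exact ⟨v, v.2, Or.inr h.symm⟩
  rw [h]
  refine (Cardinal.mk_union_le _ _).trans ?_
  refine (add_le_add Cardinal.mk_range_le Cardinal.mk_range_le).trans ?_
  refine (Cardinal.add_le_max _ _).trans ?_
  simp

theorem cl_nums_card {G : Submodule ℚ (ℂ × ℂ)} (h : #G < 𝔠) : #(Mt.closure (Nums G)) < 𝔠 := by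
  refine (closure_card _).trans_lt (max_lt ?_ Cardinal.aleph0_lt_continuum)
  exact (nums_card G).trans_lt (max_lt h Cardinal.aleph0_lt_continuum)

theorem sup_span_card (G : Submodule ℚ (ℂ × ℂ)) (w : ℂ × ℂ) :
    #(G ⊔ Submodule.span ℚ {w} : Submodule ℚ (ℂ × ℂ)) ≤ max #G ℵ₀ := by
  have h1 : #(G ⊔ Submodule.span ℚ {w} : Submodule ℚ (ℂ × ℂ)) ≤ #(G × ℚ) := by
    refine Cardinal.mk_le_of_surjective (f := fun p : G × ℚ =>
      (⟨p.1.1 + p.2 • w, Submodule.add_mem_sup p.1.2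
        (Submodule.smul_mem _ _ (Submodule.mem_span_singleton_self w))⟩ :
        (G ⊔ Submodule.span ℚ {w} : Submodule ℚ (ℂ × ℂ)))) ?_
    rintro ⟨v, hv⟩
    obtain ⟨u, hu, q, rfl⟩ := mem_dec hv
    exact ⟨(⟨u, hu⟩, q), rfl⟩
  refine h1.trans ?_
  rw [Cardinal.mk_prod, Cardinal.lift_id, Cardinal.lift_id, Cardinal.mkRat]
  refine (Cardinal.mul_le_max _ _).trans ?_
  simp

theorem gen {F : Set ℂ} (hF : #F < 𝔠) (φ : ℝ → ℂ) (hφ : InjOn φ (Ioo 0 1)) :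
    ∃ t ∈ Ioo (0 : ℝ) 1, φ t ∉ F := by
  by_contra h
  push Not at h
  have h1 : #(Ioo (0 : ℝ) 1) ≤ #F :=
    Cardinal.mk_le_of_injective (f := fun t : Ioo (0 : ℝ) 1 => (⟨φ t, h t t.2⟩ : F))
      (fun s t hst => Subtype.ext (hφ s.2 t.2 (congrArg Subtype.val hst)))
  rw [Cardinal.mk_Ioo_real zero_lt_one] at h1
  exact absurd hF (not_lt.2 h1)

theorem gen_real {F : Set ℂ} (hF : #F < 𝔠) : ∃ t ∈ Ioo (0 : ℝ) 1, (t : ℂ) ∉ F :=
  gen hF _ Complex.ofReal_injective.injOn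

theorem gen_unit {F : Set ℂ} (hF : #F < 𝔠) : ∃ t ∈ Ioo (0 : ℝ) 1, exp (t * I) ∉ F := by
  refine gen hF (fun t => exp (t * I)) ?_
  intro s hs t ht hst
  have h1 : Complex.log (exp (s * I)) = Complex.log (exp (t * I)) := congrArg _ hst
  have hpi := Real.pi_gt_three
  rw [Complex.log_exp, Complex.log_exp] at h1
  · have := congrArg Complex.im h1
    simpa using this
  · simp; linarith [ht.1]
  · simp; linarith [ht.2]
  · simp; linarith [hs.1]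
  · simp; linarith [hs.2]

theorem I_mem {S : Set ℂ} : I ∈ Mt.closure S := by
  refine cl_root (n := 2) (by norm_num) ?_
  rw [I_sq]
  have := cl_rat (S := S) (-1)
  simpa using this

theorem of_mul_I_mem {S : Set ℂ} {a : ℂ} (h : a * I ∈ Mt.closure S) : a ∈ Mt.closure S := by
  have h1 : a = (a * I) * I⁻¹ := by rw [mul_assoc, mul_inv_cancel₀ I_ne_zero, mul_one]
  rw [h1]
  exact cl_mul h (cl_inv I_mem)

variable {ω : ℂ} {τ : ℝ} {G : Submodule ℚ (ℂ × ℂ)}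

theorem nums_sub (G : Submodule ℚ (ℂ × ℂ)) : Nums G ⊆ Mt.closure (Nums G) :=
  Mt.subset_closure _ (by simp)

theorem mem_span_w (G : Submodule ℚ (ℂ × ℂ)) (w : ℂ × ℂ) : w ∈ G ⊔ Submodule.span ℚ {w} :=
  (le_sup_right : _ ≤ G ⊔ Submodule.span ℚ {w}) (Submodule.mem_span_singleton_self w)

theorem Good.dom (h : Good ω τ G) (hc : #G < 𝔠) {g : ℂ} (hg : g.im = 0 ∨ g.re = 0) :
    ∃ G' : Submodule ℚ (ℂ × ℂ), Good ω τ G' ∧ G ≤ G' ∧ #G' ≤ max #G ℵ₀ ∧ ∃ v ∈ G', v.1 = g := by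
  by_cases hG : ∃ v ∈ G, v.1 = g
  · exact ⟨G, h, le_rfl, le_max_left _ _, hG⟩
  push Not at hG
  have hF := cl_nums_card hc
  rcases hg with hg | hg
  · obtain ⟨t, ht, htF⟩ := gen_real hF
    have hexp : exp ((Real.log t : ℝ) : ℂ) = t := by rw [← ofReal_exp, Real.exp_log ht.1]
    refine ⟨_, h.ext (nums_sub G) (g := g) (l := ((Real.log t : ℝ) : ℂ)) (e := 1) ?_ ?_ hG ?_ ?_,
      le_sup_left, sup_span_card _ _, _, mem_span_w _ _, rfl⟩
    · rw [one_smul]; exact Complex.conj_eq_iff_im.2 hg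
    · rw [one_smul]; exact Complex.conj_ofReal _
    · intro v hv he
      exact htF (by rw [← hexp, ← he]; exact nums_sub G ⟨v, hv, Or.inr rfl⟩)
    · right; rwa [hexp]
  · obtain ⟨t, ht, htF⟩ := gen_unit hF
    refine ⟨_, h.ext (nums_sub G) (g := g) (l := t * I) (e := -1) ?_ ?_ hG ?_ ?_,
      le_sup_left, sup_span_card _ _, _, mem_span_w _ _, rfl⟩
    · rw [neg_one_smul]; apply Complex.ext <;> simp [hg]
    · rw [neg_one_smul]; apply Complex.ext <;> simp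
    · intro v hv he
      exact htF (by rw [← he]; exact nums_sub G ⟨v, hv, Or.inr rfl⟩)
    · right; exact htF

theorem Good.ran (h : Good ω τ G) (hc : #G < 𝔠) {l : ℂ} (hl : l.im = 0 ∨ l.re = 0) :
    ∃ G' : Submodule ℚ (ℂ × ℂ), Good ω τ G' ∧ G ≤ G' ∧ #G' ≤ max #G ℵ₀ ∧
      ∃ v ∈ G', exp v.2 = exp l := by
  by_cases hG : ∃ v ∈ G, exp v.2 = exp l
  · exact ⟨G, h, le_rfl, le_max_left _ _, hG⟩
  push Not at hG
  have hF := cl_nums_card hc
  obtain ⟨t, ht, htF⟩ := gen_real hF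
  rcases hl with hl | hl
  · refine ⟨_, h.ext (nums_sub G) (g := t) (l := l) (e := 1) ?_ ?_ ?_ hG ?_,
      le_sup_left, sup_span_card _ _, _, mem_span_w _ _, rfl⟩
    · rw [one_smul]; exact Complex.conj_ofReal _
    · rw [one_smul]; exact Complex.conj_eq_iff_im.2 hl
    · intro v hv he
      exact htF (by rw [← he]; exact nums_sub G ⟨v, hv, Or.inl rfl⟩)
    · left; exact htF
  · refine ⟨_, h.ext (nums_sub G) (g := t * I) (l := l) (e := -1) ?_ ?_ ?_ hG ?_,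
      le_sup_left, sup_span_card _ _, _, mem_span_w _ _, rfl⟩
    · rw [neg_one_smul]; apply Complex.ext <;> simp
    · rw [neg_one_smul]; apply Complex.ext <;> simp [hl]
    · intro v hv he
      exact htF (of_mul_I_mem (by rw [← he]; exact nums_sub G ⟨v, hv, Or.inl rfl⟩))
    · left; exact fun hK => htF (of_mul_I_mem hK)

theorem max_aleph {a b : Cardinal} (h : a ≤ max b ℵ₀) : max a ℵ₀ ≤ max b ℵ₀ :=
  max_le h (le_max_right _ _)

theorem Good.task (h : Good ω τ G) (hc : #G < 𝔠) (c : ℂ) :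
    ∃ G' : Submodule ℚ (ℂ × ℂ), Good ω τ G' ∧ G ≤ G' ∧ #G' ≤ max #G ℵ₀ ∧
      (∃ v ∈ G', v.1 = c) ∧ (c ≠ 0 → ∃ v ∈ G', exp v.2 = c) := by
  have hlt : ∀ H : Submodule ℚ (ℂ × ℂ), #H ≤ max #G ℵ₀ → #H < 𝔠 := fun H hH =>
    hH.trans_lt (max_lt hc Cardinal.aleph0_lt_continuum)
  obtain ⟨G1, h1, hG1, hc1, v1, hv1, he1⟩ := h.dom hc (g := (c.re : ℂ)) (Or.inl (by simp))
  obtain ⟨G2, h2, hG2, hc2, v2, hv2, he2⟩ := h1.dom (hlt _ hc1) (g := c.im * I) (Or.inr (by simp))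
  have hc2' : #G2 ≤ max #G ℵ₀ := hc2.trans (max_aleph hc1)
  obtain ⟨G3, h3, hG3, hc3, v3, hv3, he3⟩ := h2.ran (hlt _ hc2')
    (l := ((Real.log ‖c‖ : ℝ) : ℂ)) (Or.inl (by simp))
  have hc3' : #G3 ≤ max #G ℵ₀ := hc3.trans (max_aleph hc2')
  obtain ⟨G4, h4, hG4, hc4, v4, hv4, he4⟩ := h3.ran (hlt _ hc3')
    (l := (c.arg : ℂ) * I) (Or.inr (by simp))
  refine ⟨G4, h4, hG1.trans (hG2.trans (hG3.trans hG4)), hc4.trans (max_aleph hc3'), ?_, ?_⟩
  · refine ⟨v1 + v2, G4.add_mem (hG4 (hG3 (hG2 hv1))) (hG4 (hG3 hv2)), ?_⟩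
    rw [Prod.fst_add, he1, he2]; exact Complex.re_add_im c
  · intro hc0
    refine ⟨v3 + v4, G4.add_mem (hG4 hv3) hv4, ?_⟩
    rw [Prod.snd_add, exp_add, he3, he4, ← exp_add]
    have h5 : ((Real.log ‖c‖ : ℝ) : ℂ) + (c.arg : ℂ) * I = Complex.log c := by
      rw [Complex.log]
    rw [h5, exp_log hc0]

end Pool.Agent.H96RS2
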