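import Pool.Agent.H96RS2.St

open Set Complex Cardinal

namespace Pool.Agent.H96RS2

open Pool.Agent.H96RS

theorem good_sSup {ω : ℂ} {τ : ℝ} {C : Set (Submodule ℚ (ℂ × ℂ))} (hne : C.Nonempty)
    (hdir : DirectedOn (· ≤ ·) C) (h : ∀ G ∈ C, Good ω τ G) : Good ω τ (sSup C) := by
  have hmem : ∀ {v : ℂ × ℂ}, v ∈ sSup C ↔ ∃ G ∈ C, v ∈ G :=
    Submodule.mem_sSup_of_directed hne hdir
  obtain ⟨G0, hG0⟩ := hne
  refine ⟨?_, ?_, hmem.2 ⟨G0, hG0, (h G0 hG0).one⟩, hmem.2 ⟨G0, hG0, (h G0 hG0).om⟩, ?_, ?_⟩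
  · intro v hv hv0
    obtain ⟨G, hG, hvG⟩ := hmem.1 hv
    exact (h G hG).fn v hvG hv0
  · intro v hv
    obtain ⟨G, hG, hvG⟩ := hmem.1 hv
    exact hmem.2 ⟨G, hG, (h G hG).cj v hvG⟩
  · intro v hv h1
    obtain ⟨G, hG, hvG⟩ := hmem.1 hv
    exact (h G hG).ker v hvG h1
  · intro Y hY hfin
    have hc : IsCompactElement Y := (Submodule.fg_iff_compact Y).1 (Module.Finite.iff_fg.1 hfin)
    rw [CompleteLattice.isCompactElement_iff_le_of_directed_sSup_le] at hc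
    obtain ⟨G, hG, hYG⟩ := hc C ⟨G0, hG0⟩ hdir hY
    exact (h G hG).sch Y hYG hfin

theorem exists_index : ∃ (ι : Type) (_ : LinearOrder ι) (_ : WellFoundedLT ι) (e : ι → ℂ),
    Function.Surjective e ∧ ∀ i : ι, #(Iio i) < 𝔠 := by
  refine ⟨(𝔠 : Cardinal.{0}).ord.ToType, inferInstance, inferInstance, ?_⟩
  have h1 : #(𝔠 : Cardinal.{0}).ord.ToType = #ℂ := by
    rw [Cardinal.mk_ord_toType, Cardinal.mk_complex]
  obtain ⟨e⟩ := Cardinal.eq.1 h1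
  refine ⟨e, e.surjective, fun i => ?_⟩
  have := Cardinal.mk_Iio_lt i (by simp)
  rwa [Cardinal.mk_ord_toType] at this

theorem chain_good {ω : ℂ} {τ : ℝ} {ι : Type} [LinearOrder ι] {G0 : Submodule ℚ (ℂ × ℂ)}
    (h0 : Good ω τ G0) (F : ι → Submodule ℚ (ℂ × ℂ)) (J : Set ι)
    (hJ : ∀ j ∈ J, Good ω τ (F j) ∧ sSup (insert G0 (F '' Iio j)) ≤ F j) :
    DirectedOn (· ≤ ·) (insert G0 (F '' J)) ∧ Good ω τ (sSup (insert G0 (F '' J))) := by
  have h1 : ∀ j ∈ J, G0 ≤ F j := fun j hj => (le_sSup (mem_insert _ _)).trans (hJ j hj).2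
  have h2 : ∀ j k, k ∈ J → j < k → F j ≤ F k := fun j k hk hjk =>
    (le_sSup (mem_insert_of_mem _ (mem_image_of_mem F (mem_Iio.2 hjk)))).trans (hJ k hk).2
  have hchain : IsChain (· ≤ ·) (insert G0 (F '' J)) := by
    rintro _ (rfl | ⟨j, hj, rfl⟩) _ (rfl | ⟨k, hk, rfl⟩) hne
    · exact absurd rfl hne
    · exact Or.inl (h1 k hk)
    · exact Or.inr (h1 j hj)
    · rcases lt_trichotomy j k with h | h | h
      · exact Or.inl (h2 j k hk h)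
      · exact absurd (by rw [h]) hne
      · exact Or.inr (h2 k j hj h)
  refine ⟨hchain.directedOn, good_sSup ⟨G0, mem_insert _ _⟩ hchain.directedOn ?_⟩
  rintro _ (rfl | ⟨j, hj, rfl⟩)
  · exact h0
  · exact (hJ j hj).1

theorem exists_total {ω : ℂ} {τ : ℝ} {G0 : Submodule ℚ (ℂ × ℂ)} (h0 : Good ω τ G0)
    (hc0 : #G0 ≤ ℵ₀) :
    ∃ G : Submodule ℚ (ℂ × ℂ), Good ω τ G ∧ (∀ c, ∃ v ∈ G, v.1 = c) ∧
      ∀ c, c ≠ 0 → ∃ v ∈ G, exp v.2 = c := by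
  classical
  obtain ⟨ι, _, _, e, he, hι⟩ := exists_index
  have hstep : ∀ (c : ℂ) (G : Submodule ℚ (ℂ × ℂ)), ∃ G' : Submodule ℚ (ℂ × ℂ),
      Good ω τ G → #G < 𝔠 → Good ω τ G' ∧ G ≤ G' ∧ #G' ≤ max #G ℵ₀ ∧
        (∃ v ∈ G', v.1 = c) ∧ (c ≠ 0 → ∃ v ∈ G', exp v.2 = c) := by
    intro c G
    by_cases h : Good ω τ G ∧ #G < 𝔠
    · obtain ⟨G', h'⟩ := h.1.task h.2 c
      exact ⟨G', fun _ _ => h'⟩
    · exact ⟨G, fun h1 h2 => absurd ⟨h1, h2⟩ h⟩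
  choose nx hnx using hstep
  let F : ι → Submodule ℚ (ℂ × ℂ) := (wellFounded_lt (α := ι)).fix fun i f =>
    nx (e i) (sSup (insert G0 {H | ∃ j, ∃ hj : j < i, f j hj = H}))
  let U : ι → Submodule ℚ (ℂ × ℂ) := fun i => sSup (insert G0 (F '' Iio i))
  have hF : ∀ i, F i = nx (e i) (U i) := by
    intro i
    have h1 : F i = nx (e i) (sSup (insert G0 {H | ∃ j, ∃ hj : j < i, F j = H})) :=
      WellFounded.fix_eq _ _ _
    rw [h1]
    congr 3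
    ext H
    simp [mem_image]
  have key : ∀ i, Good ω τ (U i) ∧ #(U i) ≤ max #(Iio i) ℵ₀ := by
    intro i
    induction i using WellFoundedLT.induction with
    | ind i ih =>
      have hcl : ∀ j : ι, max #(Iio j) ℵ₀ < 𝔠 := fun j =>
        max_lt (hι j) Cardinal.aleph0_lt_continuum
      have hj : ∀ j ∈ Iio i, Good ω τ (F j) ∧ U j ≤ F j ∧ #(F j) ≤ max #(Iio i) ℵ₀ := by
        intro j hj
        obtain ⟨h1, h2⟩ := ih j hj
        obtain ⟨h3, h4, h5, -, -⟩ := hnx (e j) (U j) h1 (h2.trans_lt (hcl j))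
        rw [← hF j] at h3 h4 h5
        refine ⟨h3, h4, h5.trans ((max_aleph h2).trans ?_)⟩
        exact max_le_max (Cardinal.mk_le_mk_of_subset (Iio_subset_Iio (le_of_lt hj))) le_rfl
      obtain ⟨h1, h2⟩ := chain_good h0 F (Iio i) (fun j hj' => ⟨(hj j hj').1, (hj j hj').2.1⟩)
      refine ⟨h2, ?_⟩
      have h3 : ((U i : Submodule ℚ (ℂ × ℂ)) : Set (ℂ × ℂ)) =
          (G0 : Set (ℂ × ℂ)) ∪ ⋃ j ∈ Iio i, (F j : Set (ℂ × ℂ)) := by
        ext v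
        have := Submodule.mem_sSup_of_directed (z := v) ⟨G0, mem_insert _ _⟩ h1
        rw [SetLike.mem_coe, this]
        constructor
        · rintro ⟨_, (rfl | ⟨j, hj, rfl⟩), hv⟩
          · exact Or.inl hv
          · exact Or.inr (mem_biUnion hj hv)
        · rintro (hv | hv)
          · exact ⟨G0, mem_insert _ _, hv⟩
          · obtain ⟨j, hj, hv⟩ := mem_iUnion₂.1 hv
            exact ⟨F j, mem_insert_of_mem _ ⟨j, hj, rfl⟩, hv⟩
      have h4 : #((U i : Submodule ℚ (ℂ × ℂ)) : Set (ℂ × ℂ)) ≤ max #(Iio i) ℵ₀ := by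
        rw [h3]
        refine (Cardinal.mk_union_le _ _).trans ?_
        have h5 : #(⋃ j ∈ Iio i, (F j : Set (ℂ × ℂ)) : Set (ℂ × ℂ)) ≤ max #(Iio i) ℵ₀ := by
          refine (Cardinal.mk_biUnion_le _ _).trans ?_
          have h6 : (⨆ x : Iio i, #((F x.1 : Set (ℂ × ℂ)))) ≤ max #(Iio i) ℵ₀ :=
            ciSup_le' fun x => (hj x.1 x.2).2.2
          refine (mul_le_mul' le_rfl h6).trans ?_
          refine (Cardinal.mul_le_max _ _).trans ?_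
          simp
        refine (add_le_add (hc0.trans (le_max_right #(Iio i) ℵ₀)) h5).trans ?_
        refine (Cardinal.add_le_max _ _).trans ?_
        simp
      exact h4
  have key2 : ∀ i, Good ω τ (F i) ∧ U i ≤ F i ∧ (∃ v ∈ F i, v.1 = e i) ∧
      (e i ≠ 0 → ∃ v ∈ F i, exp v.2 = e i) := by
    intro i
    obtain ⟨h1, h2⟩ := key i
    obtain ⟨h3, h4, -, h5, h6⟩ := hnx (e i) (U i) h1
      (h2.trans_lt (max_lt (hι i) Cardinal.aleph0_lt_continuum))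
    rw [← hF i] at h3 h4 h5 h6
    exact ⟨h3, h4, h5, h6⟩
  obtain ⟨-, h2⟩ := chain_good h0 F univ (fun j _ => ⟨(key2 j).1, (key2 j).2.1⟩)
  refine ⟨_, h2, fun c => ?_, fun c hc => ?_⟩
  · obtain ⟨i, rfl⟩ := he c
    obtain ⟨v, hv, h3⟩ := (key2 i).2.2.1
    exact ⟨v, (le_sSup (mem_insert_of_mem _ (mem_image_of_mem F (mem_univ i)))) hv, h3⟩
  · obtain ⟨i, rfl⟩ := he c
    obtain ⟨v, hv, h3⟩ := (key2 i).2.2.2 hc
    exact ⟨v, (le_sSup (mem_insert_of_mem _ (mem_image_of_mem F (mem_univ i)))) hv, h3⟩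

end Pool.Agent.H96RS2
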